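import Pool.Agent.H347.AT.Main

set_option autoImplicit false

/-!
# Automorphism groups of iterated extensions of hyperbolic groups, and Farrell-Jones groups

`C` is a class of groups. The class of the Farrell-Jones groups has all the properties which are used:
`ACl C` (it contains the trivial groups and is closed under subgroups, direct products, overgroups of
finite index and extensions with abelian kernel), `ClosedE C` (it contains `ℤ` and is closed under
subgroups, finite products, free products, overgroups of finite index, directed colimits and satisfies
the extension criterion with virtually cyclic subgroups), and it contains the solvable groups, the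
hyperbolic groups and the groups `GL_n(ℤ)`.

(1) Let `C` be as above. Consider the groups `N` which are obtained from polycyclic groups by iterated
extensions, the new quotient being (a) finite (also overgroups of finite index are allowed), or
(b) polycyclic, if the kernel has only finitely many images under the automorphisms, or (c) a finitely
generated group `Q` which is not virtually cyclic and embeds in a residually finite hyperbolic group,
such that `Aut Q` is in `C` or `Q` has finite outer automorphism group and trivial centre. Then `Aut N` is in
`C`, and every group `G` is in `C` which has finitely many normal subgroups of this kind such that the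
intersection of their centralizers is solvable. Nothing is assumed on the quotients. For instance `G`
may have one self-centralizing normal subgroup of this kind.

The condition on `Q` is fulfilled for the class of the Farrell-Jones groups and all one-ended residually
finite hyperbolic groups `Q` (Andrew, Guerch, Hughes: Automorphisms of relatively hyperbolic groups and the
Farrell-Jones conjecture): `Out Q` has a subgroup of finite index which is a central extension, with
finitely generated abelian kernel, of a product of mapping class groups (Sela, Levitt,
Guirardel-Levitt), which are Farrell-Jones groups (Bartels-Bestvina), and extensions with kernel `Q` are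
treated by Bestvina-Fujiwara-Wigglesworth. So all the groups with a self-centralizing normal subgroup
which is an iterated extension of one-ended residually finite hyperbolic groups, with polycyclic bottom,
are Farrell-Jones groups.

A group `Q` is rigid if for every `r` some subgroup of finite index contains no nontrivial normal
subgroup of `Q` generated by `r` elements. All groups which embed in residually finite hyperbolic groups
and are not virtually cyclic are rigid (`MP_2a0850_gt.SubnormalPolyRigid`, the same helper files; the
proof is a carrier graph argument), and so are the finitely generated residually free groups with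
trivial centre and the finitely generated residually finite groups with positive rank gradient.

(2) Let `Tower C N` be the smallest class of groups which contains the finitely generated groups `N`
with `Aut N` in `C`, the groups with a subgroup of finite index in the class, and the groups `N` with a
normal subgroup `K` in the class such that `Aut (N / K)` is in `C`, `N / K` is finitely generated, and
`N / K` is rigid or the images of `K` under the automorphisms of `N` are finitely many (for instance if
`K` is characteristic). Let `N_i` be finitely many normal subgroups of a group `G` which are in this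
class, and let `D` be the intersection of their centralizers. Then `G` is in `C` if and only if `D⟨g⟩` is
in `C` for all `g` in `G`. So `G` is in `C` if `D` is solvable, or if all `D ⋊ ℤ` are in `C`.

(3) If `ACl C` then `Aut N` is in `C` for the groups `N` in (2). (Other examples of `C` are the groups that
satisfy the Tits alternative, or the exact groups.)

(4) Let `K` be a finitely generated normal subgroup of the finitely generated group `N` with rigid
quotient. Then the stabilizer of `K` in `Aut N` has finite index, and its homomorphism to
`Aut K × Aut (N / K)` has abelian kernel, which is trivial if `K` has trivial centre.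
-/

namespace Pool.Agent.Results.MP_490288_al.AutomorphismTowers

open Subgroup Pool.Agent.H347.PS Pool.Agent.H347.HY Pool.Agent.H347.AT
open Pool.Agent.Helper687_Borel (ACl SolvIn MT stab)
open Pool.Agent.Y110.FJ (ClosedE)

/-- `Q` has a cyclic subgroup of finite index. -/
def VirtCyclic (Q : Type) [Group Q] : Prop := ∃ Z : Subgroup Q, Z.FiniteIndex ∧ IsCyclic Z

/-- the stabilizer of `K` in the automorphism group of `N` has finite index, and its homomorphism to the
automorphism groups of `K` and `N / K` given by restriction has an abelian kernel, which is trivial if
`K` has trivial center -/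
def StabMap {N : Type} [Group N] (K : Subgroup N) [K.Normal] : Prop :=
  (stab K).FiniteIndex ∧ ∃ f : stab K →* MulAut K × MulAut (N ⧸ K),
    (∀ σ : stab K, (∀ x : K, ((f σ).1 x : N) = σ.1 x) ∧
      ∀ x : N, (f σ).2 (x : N ⧸ K) = ((σ.1 x : N) : N ⧸ K)) ∧
    (∀ σ τ : stab K, f σ = 1 → f τ = 1 → σ * τ = τ * σ) ∧
    (center K = ⊥ → Function.Injective f)

/-- the classes of groups in (1): closed under the operations of `ClosedE`, with all solvable groups,
all hyperbolic groups and the automorphism groups of `ℤⁿ` -/
structure Rich (C : ∀ (G : Type) [Group G], Prop) : Prop where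
  closed : ClosedE C
  solv : SolvIn C
  gl : ∀ n : ℕ, C (MulAut (Multiplicative (Fin n → ℤ)))
  hyp : ∀ (G : Type) [Group G], Hyperbolic G → C G

/-- `Q` is finitely generated, embeds in a residually finite hyperbolic group, is not virtually cyclic,
and `Aut Q` is in `C` or `Q` has trivial centre and finite outer automorphism group -/
def Factor (C : ∀ (G : Type) [Group G], Prop) (Q : Type) [Group Q] : Prop :=
  Group.FG Q ∧ (∃ (H : Type) (_ : Group H) (f : Q →* H), Function.Injective f ∧ Hyperbolic H ∧
    Group.ResiduallyFinite H) ∧ ¬ VirtCyclic Q ∧
    (C (MulAut Q) ∨ (center Q = ⊥ ∧ (MulAut.conj : Q →* MulAut Q).range.FiniteIndex))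

/-- solvable with all subgroups finitely generated -/
def Polycyclic (Q : Type) [Group Q] : Prop := Group.IsSolvable Q ∧ ∀ H : Subgroup Q, H.FG

/-- the iterated extensions in (1) -/
inductive HypTower (C : ∀ (G : Type) [Group G], Prop) : ∀ (N : Type) [Group N], Prop
  | base (N : Type) [Group N] : Polycyclic N → HypTower C N
  | hyp (N : Type) [Group N] (K : Subgroup N) [K.Normal] : HypTower C K → Factor C (N ⧸ K) →
      HypTower C N
  | poly (N : Type) [Group N] (K : Subgroup N) [K.Normal] : HypTower C K → FewImages K →
      Polycyclic (N ⧸ K) → HypTower C N
  | fin (N : Type) [Group N] (K : Subgroup N) [K.FiniteIndex] : HypTower C K → HypTower C N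

theorem tower_of_hyp {C : ∀ (G : Type) [Group G], Prop} (hR : Rich C) {N : Type} [Group N]
    (h : HypTower C N) : Tower C N := by
  have hA := Pool.Agent.Helper687_Borel.acl_of_closedE hR.closed hR.solv
  have hP : ∀ (Q : Type) [Group Q], Polycyclic Q → Group.FG Q ∧ C (MulAut Q) := by
    intro Q _ hQ
    obtain ⟨n, hn⟩ := hQ.1.solvable
    exact ⟨Group.fg_def.2 (hQ.2 ⊤), Pool.Agent.Helper687_Borel.aut_poly hA hR.gl n Q hn hQ.2⟩
  induction h with
  | base N hN => exact Tower.base N (hP N hN).1 (hP N hN).2
  | hyp N K _ hQ ih =>
    obtain ⟨h1, ⟨H, _, f, hf, hH, hr⟩, h3, h4⟩ := hQ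
    refine Tower.step N K ih h1 (Or.inl (rigid_embed H _ f hf hH h3)) ?_
    rcases h4 with h4 | ⟨h4, h5⟩
    · exact h4
    · exact aut_of_out hA _ h4 (hA.of_injective _ _ f hf (hR.hyp H hH)) h5
  | poly N K _ hK hQ ih => exact Tower.step N K ih (hP _ hQ).1 (Or.inr hK) (hP _ hQ).2
  | fin N K _ ih => exact Tower.fin N K ih

/-- **automorphism groups of iterated extensions, and Farrell-Jones groups** -/
theorem result :
    -- 1. iterated extensions of hyperbolic groups
    (∀ C : ∀ (G : Type) [Group G], Prop, Rich C →
      (∀ (G ι : Type) [Group G] [Finite ι] (N : ι → Subgroup G) [∀ i, (N i).Normal],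
        (∀ i, HypTower C (N i)) → Group.IsSolvable ↥(⨅ i, centralizer (N i : Set G)) → C G) ∧
      ∀ (N : Type) [Group N], HypTower C N → Tower C N ∧ C (MulAut N)) ∧
    -- 2. the centralizers decide
    (∀ C : ∀ (G : Type) [Group G], Prop, ClosedE C → SolvIn C →
      ∀ (G ι : Type) [Group G] [Finite ι] (N : ι → Subgroup G) [∀ i, (N i).Normal],
      (∀ i, Tower C (N i)) →
        (C G ↔ ∀ g : G, C ↥((⨅ i, centralizer (N i : Set G)) ⊔ zpowers g)) ∧
        (MT C ↥(⨅ i, centralizer (N i : Set G)) → C G) ∧
        (Group.IsSolvable ↥(⨅ i, centralizer (N i : Set G)) → C G)) ∧
    -- 3. automorphism groups of iterated extensions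
    (∀ C : ∀ (G : Type) [Group G], Prop, ACl C → ∀ (N : Type) [Group N], Tower C N →
      C (MulAut N)) ∧
    -- 4. the stabilizer of a normal subgroup with rigid quotient
    (∀ (N : Type) [Group N] (K : Subgroup N) [K.Normal], Group.FG N → K.FG → Rigid (N ⧸ K) →
      StabMap K) ∧
    (∀ (Q H : Type) [Group Q] [Group H] (f : Q →* H), Function.Injective f → Hyperbolic H →
      Group.ResiduallyFinite H → ¬ VirtCyclic Q → Rigid Q) := by
  have h2 : ∀ C : ∀ (G : Type) [Group G], Prop, ACl C → ∀ (N : Type) [Group N], Tower C N →
      C (MulAut N) := fun C hC N _ hN => (tower_aut hC hN).2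
  have h3 : ∀ C : ∀ (G : Type) [Group G], Prop, ClosedE C → SolvIn C →
      ∀ (G ι : Type) [Group G] [Finite ι] (N : ι → Subgroup G) [∀ i, (N i).Normal],
      (∀ i, Tower C (N i)) →
        (C G ↔ ∀ g : G, C ↥((⨅ i, centralizer (N i : Set G)) ⊔ zpowers g)) ∧
        (MT C ↥(⨅ i, centralizer (N i : Set G)) → C G) ∧
        (Group.IsSolvable ↥(⨅ i, centralizer (N i : Set G)) → C G) :=
    fun C hC hS G ι _ _ N _ hN => crit_family hC hS N
      (fun i => h2 C (Pool.Agent.Helper687_Borel.acl_of_closedE hC hS) _ (hN i)) _ rfl
  refine ⟨?_, h3, h2, ?_, fun Q H _ _ f hf hH hr hv => rigid_embed H Q f hf hH hv⟩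
  · intro C hR
    have hA := Pool.Agent.Helper687_Borel.acl_of_closedE hR.closed hR.solv
    refine ⟨?_, fun N _ hN => ⟨tower_of_hyp hR hN, h2 C hA N (tower_of_hyp hR hN)⟩⟩
    intro G ι _ _ N _ hN hD
    exact (h3 C hR.closed hR.solv G ι N fun i => tower_of_hyp hR (hN i)).2.2 hD
  · intro N _ K _ hN hK hS
    have hf : (stab K).FiniteIndex := stab_rigid N K hK hS
    refine ⟨hf, (Pool.Agent.Helper687_Borel.rq K K).comp (inclusion (le_inf le_rfl le_rfl)),
      fun σ => ⟨fun x => rfl, fun x => rfl⟩, fun σ τ hσ hτ => ?_, fun hZ => ?_⟩
    · have h := Pool.Agent.Helper687_Borel.rq_abelian (le_refl K) _ _ hσ hτ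
      exact inclusion_injective (le_inf le_rfl le_rfl) (by rw [map_mul, map_mul]; exact h)
    · exact (Pool.Agent.Helper687_Borel.rq_injective (le_refl K) hZ).comp (inclusion_injective _)

end Pool.Agent.Results.MP_490288_al.AutomorphismTowers
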