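import Pool.Agent.H751.PC.Cubes

/-!
# Proper actions on CAT(0) cube complexes with cocompact intersections of two hyperplanes

A polygonal complex `X : Cx V` consists of a graph with the vertex set `V` and of faces, embedded
closed paths; `X.SC` means that it is simply connected. `Cube X`: the faces are squares, two squares
have no common corner, and three squares at a vertex any two of which have an edge at the vertex in
common are contained in a `3`-cube; so `X` is the two-skeleton of a cube complex of nonpositive
curvature, and with `X.SC` the two-skeleton of a CAT(0) cube complex. All dimensions, also infinite
dimension, are allowed. `Wall X` is the set of the hyperplanes, `pr X l` the pair of the two
hyperplanes of the square `l`. `Proper G X`: `G` acts with finite stabilizers of the vertices.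
`CodimTwo G X`: the squares with a given pair of hyperplanes are in finitely many `G`-orbits, i.e.
for any two crossing hyperplanes `w`, `w'` the stabilizer of the pair acts cocompactly on the
intersection `w ∩ w'`, which has codimension two. `Cubulated H`: the group `H` acts properly and
cocompactly on a CAT(0) cube complex. `DirColim D G`: the group `G` is the colimit of a directed
system of groups with the property `D`.

Every group `G` which acts with finite stabilizers on a CAT(0) cube complex `X` such that the
intersection of any two crossing hyperplanes is cocompact, is the colimit of a directed system of
cocompactly cubulated groups. The numbers of the orbits of hyperplanes and of pairs of crossing
hyperplanes are arbitrary, the hyperplanes need not be cocompact, and `X` need not be locally finite.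

If `X` is two-dimensional then the intersection of two crossing hyperplanes is a point, and the
condition is void; in higher dimensions some condition is needed for the proof, since cofinite
subcomplexes need not be nonpositively curved.

Cocompactly cubulated groups are CAT(0) groups (of finite dimension), which satisfy the Full
Farrell–Jones Conjecture, and the class of the Farrell–Jones groups is closed under directed
colimits. So `G` is a Farrell–Jones group.

Outline of the proof. For a finite set `K` of squares and a finite set `E` of edges let `Y` be the
subcomplex of `X` consisting of the squares whose pair of hyperplanes is a translate of the pair of
an element of `K`, and of the translates of the elements of `E`. It is cofinite, and it is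
nonpositively curved, since the three squares at the opposite vertex of a `3`-cube have the same
pairs of hyperplanes as the three squares at a vertex. The group of all lifts of elements of `G` to
the universal covering of the component of the base point of `Y` acts properly and cocompactly on
it, and `G` is the directed colimit of these groups.
-/

set_option autoImplicit false

namespace Pool.Agent.Results.MP_490288_al.CodimensionTwo

open Pool.Agent.H751.PC

theorem result (G V : Type) [Group G] [MulAction G V] [Nonempty V] (X : Cx V) (hSC : X.SC)
    (hCube : Cube X) (hProper : Proper G X) (hCodim : CodimTwo G X) :
    DirColim (fun H _ => Cubulated H) G :=
  cubes_main X hSC hCube hProper hCodim

end Pool.Agent.Results.MP_490288_al.CodimensionTwo
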