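import Pool.Agent.H417.Dg.Main
import Pool.Agent.H417.Th.Main
import Pool.Graph.R_seed8.R615.KU.DetK

/-!
# Rational injectivity of assembly in algebraic K-theory for all diagram groups

The diagram group `D(P, w)` of Guba and Sapir of a semigroup presentation `P = ⟨X | u_r = v_r, r ∈ R⟩`
and a word `w` is the fundamental group of the Squier complex of `P` at `w`. Its vertices are the words
over `X`, its edges are the applications of relations to words, and its squares are the pairs of
applications to disjoint parts of a word. `P` is arbitrary: the sets `X` and `R` may be infinite, and no
completeness is assumed. Among these groups are `F_m = D(⟨x | x = x^m⟩, x)`, in particular Thompson's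
group `F = F₂`, free groups, iterated wreath products with `ℤ`, finitely presented groups that contain
all countable diagram groups, and they are closed under finite direct products and free products. In
general they are not amenable, have infinite cohomological dimension and infinitely generated
homology; it is not known whether they are exact or satisfy the Farrell-Jones conjecture.
`F_m = ⟨x₀, x₁, x₂, … | x_j x_i = x_i x_{j+m-1} (i < j)⟩`, `m ≥ 2`, is the group of Thompson, Higman and
Brown, which is treated separately in the second part, with this presentation.

`R` is any ring, `rat (kgr R)` is the functor `G ↦ ℚ ⊗ K₁(R[G])`, `timesF T` is the functor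
`G ↦ G × T`, and `hq j` is the functor `G ↦ H_j(G; ℚ)`. `DetK R G` says: for every group `T` and every
family of transformations `α_{j,i} : H_j(-; ℚ) → ℚ ⊗ K₁(R[- × T])`, `i ∈ I_j`, natural in the group,
such that for each `j` the `α_{j,i}`, `i ∈ I_j`, are linearly independent on the group `ℤ^j`, the sum
of all the `α_{j,i}` is injective on `G`. With `T = ℤ^k` this covers the rational assembly maps with
values in `K_q(R[G])`, `q ≤ 1`, as `K_q(R[G])` is a direct summand of `K₁(R[G × ℤ^{1-q}])`.

We prove `DetK R G` for all rings `R` and all groups `G` with a subgroup of finite index which is
isomorphic to a diagram group.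

Outline of the proof. The universal cover of the Squier complex is completed by cubes to a cubical
complex. It is acyclic: the cubes are the terms over the free strict monoidal groupoid, and the
normal forms of terms give a contraction. The complex of coinvariants, for all words at once, is the
free differential graded algebra on the letters (of degree `0`) and the relations (of degree `1`),
with `d r = u_r - v_r`. Let `S` be the monoid presented by `P`. A cycle of degree `n` is a boundary if
its image in `ℚ[types]` vanishes; here the type of `a₀ r₁ a₁ ⋯ r_n a_n`, `a_i` words, is
`([a₀], r₁, [a₁], …, r_n, [a_n])`, `[a_i] ∈ S`. The coordinates of this map are the products of the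
crossing numbers with the hyperplanes of the types `([a₀ u_{r_1} ⋯ a_{i-1}], r_i, [a_i ⋯ u_{r_n} a_n])`,
which are crossed homomorphisms to permutation modules, summed over invariant sets of tuples of
hyperplanes which cross each other in the order from the left to the right. The kernels of natural
transformations are orthogonal to such products.
-/

set_option autoImplicit false

namespace Pool.Agent.Results.MP_490288_al.DiagramGroups

open Pool.Agent.R615.KU Pool.Agent.R615.K1 Pool.Agent.H417.Dg

/-- The relators `x_j x_i (x_i x_{j+m-1})⁻¹`, `i < j`. -/
def relators (m : ℕ) : Set (FreeGroup ℕ) :=
  {w | ∃ i j : ℕ, i < j ∧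
    w = FreeGroup.of j * FreeGroup.of i * (FreeGroup.of i * FreeGroup.of (j + (m - 1)))⁻¹}

theorem result (R : Type) [Ring R] :
    (∀ (P : Pres) (w : List P.X) (G : Type) [Group G] (H : Subgroup G) [H.FiniteIndex],
      Nonempty (H ≃* DG P w) → DetK R G) ∧
    (∀ m : ℕ, 2 ≤ m → DetK R (PresentedGroup (relators m))) := by
  refine ⟨?_, ?_⟩
  · rintro P w G _ H _ ⟨e⟩
    exact Det.virt (hasPT_rat (hasPTI_kgr R)) H
      ((det_DG P w (hasPT_rat (hasPTI_kgr R))).congr e)
  · intro m hm
    exact Pool.Agent.H417.Th.det_F (d := m - 1) (by omega) (hasPT_rat (hasPTI_kgr R))

end Pool.Agent.Results.MP_490288_al.DiagramGroups
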