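import Pool.Agent.H416.WR.Fin

set_option autoImplicit false

/-!
# The Full Farrell-Jones Conjecture and groups with linear centralisers: Chern characters in all degrees

Let `𝓛` be the class of the groups `G` such that for each element `g` of infinite order and each finitely
generated subgroup `H` of `G` which contains `g` the centraliser of `g` in `H` has a representation of finite
degree over some field (of any characteristic) in which `g` has infinite order (`LinCls`).

(1) Let `G` be in `𝓛`, `F` a finite group, and let `S` be any ring graded by the wreath product `G ≀ F`, for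
example the endomorphism ring of an object of `𝒜[G ≀ F]`, `𝒜` an additive category with an action of
`G ≀ F`. The components at the elements `g` of infinite order of the Chern characters
`K_m(𝒜[G ≀ F]) → HC_{m+2j} ⊗ ℚ`, `j ≥ 0`, are zero on the image of the assembly map of the Full
Farrell-Jones Conjecture, so the conjecture (surjectivity) predicts that they are zero for all `m`. We
prove this unconditionally, for all cycles `(Ω, δ, T)` in the sense of Connes over `S`, of any dimension
(`AtElement`); so the values of the Chern characters are the contributions of the elements of finite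
order (`FinOnly`).

(2) The class `𝓛` is closed under: subgroups, subgroups and overgroups of finite index, finite direct
products, wreath products with finite groups, directed unions (it contains a group if it contains its
finitely generated subgroups), and extensions: if the normal subgroup `N` of `G` is finitely generated, has
trivial centre, the powers of the augmentation ideal of `ℚ[N]` separate its elements from `1` (for
example if `N` is a free group of finite rank `≥ 2` or the fundamental group of a closed orientable
surface of genus `≥ 2`), and if `G / N` is in `𝓛`, then `G` is in `𝓛`.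

(3) The class `𝓛` contains: the linear groups `GL_n(F)`, `F` any field, and all locally linear groups; the
groups `Out(F_n)`; the groups `Aut(Γ)`, `Γ` a finitely generated group such that the powers of the
augmentation ideal of `ℚ[Γ]` separate the elements from `1`, for example `Aut(F_n)`; the groups
`Aut_F(P)`, `P` a Noetherian local algebra over a field `F` of characteristic zero with residue field
finite over `F` (jets and germs of automorphisms of varieties, formal diffeomorphisms); and the groups in
which each element of infinite order, in the finitely generated subgroups, acts suitably on the circle, on a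
`CAT(0)` space, on a space of negative type or on a space with walls.

The Full Farrell-Jones Conjecture is open in general for linear groups and for `Out(F_n)`, `n ≥ 3`.

**The K-groups and the Chern characters.** For a ring `A` let `L A` be the ring of the polynomials `f` over
`A` in a central variable `t` with `f(0) = f(1)`, and `L^k A` its `k`-th iteration. For `m ≥ 1` the Chern
characters of `K_m(A)` factor through the Karoubi-Villamayor group `KV_m(A)` (periodic cyclic homology is
homotopy invariant), whose elements are given by the invertible matrices over `L^(m-1) A` which are `1` at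
`t_i = 0` and `t_i = 1`, for all `i`. The elements of `K_0(A)` are given by the idempotent matrices over
`A = L^0 A`, and those of `K_{-r}(A)` by the idempotent matrices over `A[ℤ^r]`, which is graded by `G ≀ F` if
`A` is. The cyclic cocycles of `S` of dimension `N` with rational values are given by the cycles
`(Ω, δ, T)` of Connes over `S` of dimension `N`, and functionals `f : M → ℚ` on the range `M` of `T`. The ring
`LΩ` of the forms `a + b dt` on the interval, `a, b ∈ Ω[t]`, `a(0) = a(1)`, with the total
differential and the trace `T(a + b dt) = ∫ T(b(t)) dt` is a cycle of dimension `N + 1` over `L S`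
(`Dat.loop`). The character of the class of an invertible matrix `u` over `L^k S` is a multiple of
`T_k((u⁻¹ δu) ^ (2 n + 1))`, where `2 n + 1 = N + k`, and the one of the class of an idempotent matrix `e` is a
multiple of `T_k(e (δe) ^ (2 n))`, `2 n = N + k`. `Dat.comp` is the component of such a value at the class of
`g`: the sum of the terms in which the product of the degrees of the factors is a conjugate of `g`.

Idea of the proof. Odd characters are reduced to even ones, higher dimensional cycles to traces by
Fedosov's product. For traces one evaluates functions of closed polygons in `G` on `e ⊗ ⋯ ⊗ e`. The Euler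
class of the centraliser as an extension by `g` is represented by the coboundary of a skew function
`b(u, v) = tr (N (R_u R_v - R_v R_u))` for operators on a space of finite dimension. The evaluation of the
Pfaffian of `b`, bordered by `1`, is a nonzero multiple of the trace at `g`, by a sign reversing involution,
and the large Pfaffians of `b` are zero. For `Out(F_n)` one uses its action on the spaces
`ℚ[F_n] / (I ^ c + [ℚ[F_n], ℚ[F_n]])`: an automorphism which acts trivially on all of them preserves the
traces of all representations of `F_n` by matrices in `SL_2(ℚ[X])` congruent to `1`, hence the lengths of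
the cyclically reduced words, and a power of it is inner. For wreath products and overgroups of finite index
one uses induced representations of the centralisers.
-/

namespace Pool.Agent.Results.MP_490288_al.LinearCentralizers

open Pool.Agent.V11187.DG (Cyc)
open Pool.Agent.H881.LG11 (epsR)
open Pool.Agent.H416.HC (co)
open Pool.Agent.H416.LG (OnLinear augI)
open Pool.Agent.H416.OF (Out)
open Pool.Agent.H416.KM (Datum Dat)
open Pool.Agent.H416.WR (LinCls)
open Pool.Agent.H416 (OnCircle OnCAT0 OnNegType OnWalls)

universe u v w x y

section defs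

variable {K : Type u} [CommRing K] {Ω : Type v} [Ring Ω] [Algebra K Ω] {G : Type w} [Group G]
  {M : Type x} [AddCommGroup M] [Module K M] {S : Type y} [Ring S]

/-- The cycle `(Ω, δ, T)` over the graded ring `S` with the functional `f`: all elements of `A = S` are
distinguished, `epsR` is `(-1) ^ i` on the elements of degree `i`, and `σ : S → Ω[G]` maps an element
`s_h` of degree `h` to `ρ(s_h) h`. -/
noncomputable def datum (𝒜 : ℕ → Submodule K Ω) [GradedAlgebra 𝒜] (δ : Ω →ₗ[K] Ω) (T : Ω →ₗ[K] M)
    (σ : S →+* MonoidAlgebra Ω G) (f : M →+ ℚ) : Dat.{v, w, y} G where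
  A := S
  P _ := True
  Ω := Ω
  ε := epsR 𝒜
  δ := δ
  T s := f (T s)
  σ := σ

theorem isCycle {𝒜 : ℕ → Submodule K Ω} [GradedAlgebra 𝒜] {δ : Ω →ₗ[K] Ω} {T : Ω →ₗ[K] M} {N : ℕ}
    (hc : Cyc N 𝒜 δ T) {σ : S →+* MonoidAlgebra Ω G}
    (hσ : ∀ a, σ a ∈ Pool.Agent.V11187.DG.Sg 𝒜 G 0) (f : M →+ ℚ) :
    (⟨S, Ω, epsR 𝒜, δ.toAddMonoidHom, f.comp T.toAddMonoidHom, σ⟩ :
      Datum.{v, w, y} G).IsCycle N :=
  ⟨Pool.Agent.H416.KM.tr_of_cyc hc f,
    Pool.Agent.H416.KM.ev_of_mem (Ω := Ω) (𝒜 := 𝒜) (σ := σ) hσ⟩

end defs

/-- A property `P`, depending on a number, of the data of all cycles `(Ω, δ, T)` (with functionals `f`)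
of all dimensions `N` over all rings `S` graded by `G`, and of their iterated loops: the number is
`N + k` for the `k`-th iteration, `k ≥ 0`. -/
def AllCycles (G : Type w) [Group G] (P : Dat.{v, w, y} G → ℕ → Prop) : Prop :=
  ∀ (_ : DecidableEq G) (S : Type y) [Ring S] (𝒮 : G → AddSubgroup S) [DirectSum.Decomposition 𝒮]
    (h1 : (1 : S) ∈ 𝒮 1) (hmul : ∀ g h : G, ∀ x ∈ 𝒮 g, ∀ y ∈ 𝒮 h, x * y ∈ 𝒮 (g * h))
    (K : Type u) [CommRing K] (Ω : Type v) [Ring Ω] [Algebra K Ω]
    (𝒜 : ℕ → Submodule K Ω) [GradedAlgebra 𝒜] (M : Type x) [AddCommGroup M] [Module K M]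
    (δ : Ω →ₗ[K] Ω) (T : Ω →ₗ[K] M) (N : ℕ), Cyc N 𝒜 δ T → ∀ ρ : S →+* Ω, (∀ a, ρ a ∈ 𝒜 0) →
    ∀ (f : M →+ ℚ) (k : ℕ), P ((datum 𝒜 δ T (co 𝒮 h1 hmul ρ) f).loops k) (N + k)

/-- The components at the class of `g` of the Chern characters in all degrees of all rings graded by `G`
are zero. -/
def AtElement (G : Type w) [Group G] (g : G) : Prop :=
  AllCycles.{u, v, w, x, y} G fun D N => D.Vanish N g

/-- The Chern characters in all degrees of all rings graded by `G` are the contributions of the elements
of finite order. -/
def FinOnly (G : Type w) [Group G] : Prop :=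
  AllCycles.{u, v, w, x, y} G fun D N => D.OnlyFinite N

/-- (2) Closure properties of the class `𝓛`. -/
def Closed : Prop :=
  (∀ (G G' : Type w) [Group G] [Group G'] (f : G →* G'), Function.Injective f →
    LinCls.{w, w} G' → LinCls.{w, w} G) ∧
  (∀ (G : Type w) [Group G] (N : Subgroup G) [N.FiniteIndex], LinCls.{w, w} N → LinCls.{w, w} G) ∧
  (∀ (ι : Type w) [Finite ι] (G : ι → Type w) [∀ i, Group (G i)],
    (∀ i, LinCls.{w, w} (G i)) → LinCls.{w, w} (∀ i, G i)) ∧
  (∀ (D Q : Type w) [Group D] [Group Q] [Finite Q], LinCls.{w, w} D →
    LinCls.{w, w} (D ≀ᵣ Q)) ∧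
  (∀ (G : Type w) [Group G], (∀ H : Subgroup G, H.FG → LinCls.{w, w} H) → LinCls.{w, w} G) ∧
  (∀ (G : Type w) [Group G] (N : Subgroup G) [N.Normal], N.FG → Subgroup.center N = ⊥ →
    (∀ a : N, a ≠ 1 → ∃ c : ℕ, MonoidAlgebra.of ℚ N a - 1 ∉ augI N ^ c) →
    LinCls.{w, w} (G ⧸ N) → LinCls.{w, w} G)

/-- (3) Groups in the class `𝓛`. -/
def Members : Prop :=
  (∀ (F : Type w) [Field F] (n : ℕ), LinCls.{w, w} (GL (Fin n) F)) ∧
  (∀ (α : Type w) [Finite α], LinCls.{w, w} (Out (FreeGroup α))) ∧
  (∀ (Γ : Type w) [Group Γ], Group.FG Γ →
    (∀ a : Γ, a ≠ 1 → ∃ c : ℕ, MonoidAlgebra.of ℚ Γ a - 1 ∉ augI Γ ^ c) →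
    LinCls.{w, w} (MulAut Γ)) ∧
  (∀ (α : Type w) [Finite α], LinCls.{w, w} (MulAut (FreeGroup α))) ∧
  (∀ (F P : Type w) [Field F] [CharZero F] [CommRing P] [IsNoetherianRing P] [IsLocalRing P]
    [Algebra F P] [Module.Finite F (IsLocalRing.ResidueField P)], LinCls.{w, w} (P ≃ₐ[F] P)) ∧
  (∀ (G : Type w) [Group G], (∀ g : G, ¬ IsOfFinOrder g → OnLinear.{w, w} G g ∨ OnCircle G g ∨
    OnCAT0.{w, w} G g ∨ OnNegType.{w, w} G g ∨ OnWalls.{w, w} G g) → LinCls.{w, w} G)

/-- (1) For a group `G` in the class `𝓛` and a finite group `F` the components at all elements of infinite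
order of the Chern characters in all degrees of all rings graded by the wreath product `G ≀ F` are
zero, and these Chern characters are the contributions of the elements of finite order.
(2) The class `𝓛` is closed under the operations listed in `Closed`. (3) It contains the groups listed in
`Members`. -/
theorem result :
    (∀ (G F : Type w) [Group G] [Group F] [Finite F], LinCls.{w, w} G →
      (∀ g : G ≀ᵣ F, ¬ IsOfFinOrder g → AtElement.{u, v, w, x, y} (G ≀ᵣ F) g) ∧
      FinOnly.{u, v, w, x, y} (G ≀ᵣ F)) ∧
    Closed.{w} ∧ Members.{w} := by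
  refine ⟨?_, ?_, ?_⟩
  · intro G F _ _ _ hG
    have hW : LinCls.{w, w} (G ≀ᵣ F) := Pool.Agent.H416.WR.wreath G F hG
    refine ⟨fun g hg => ?_, ?_⟩
    · intro _ S _ 𝒮 _ h1 hmul K _ Ω _ _ 𝒜 _ M _ _ δ T N hc ρ hρ f k
      exact Pool.Agent.H416.KM.vanish_loops (Datum.sim _)
        (isCycle hc (Pool.Agent.H416.HC.co_mem 𝒮 h1 hmul hρ) f) (hW g hg).good k
    · intro _ S _ 𝒮 _ h1 hmul K _ Ω _ _ 𝒜 _ M _ _ δ T N hc ρ hρ f k
      exact Pool.Agent.H416.KM.onlyFinite_loops (Datum.sim _)
        (isCycle hc (Pool.Agent.H416.HC.co_mem 𝒮 h1 hmul hρ) f) (fun g hg => (hW g hg).good) k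
  · exact ⟨fun G G' _ _ f hf h => Pool.Agent.H416.WR.sub f hf h,
      fun G _ N _ h => Pool.Agent.H416.WR.index G N h,
      fun ι _ G _ h => Pool.Agent.H416.WR.prod ι G h,
      fun D Q _ _ _ h => Pool.Agent.H416.WR.wreath D Q h,
      fun G _ h => Pool.Agent.H416.WR.LinCls.of_local h,
      fun G _ N _ h1 h2 h3 h => Pool.Agent.H416.WR.ext G N h1 h2 h3 h⟩
  · exact ⟨fun F _ n => Pool.Agent.H416.WR.gl F n, fun α _ => Pool.Agent.H416.WR.out α,
      fun Γ _ hΓ hs => Pool.Agent.H416.WR.aut Γ hΓ hs, fun α _ => Pool.Agent.H416.WR.autFree α,
      fun F P _ _ _ _ _ _ _ => Pool.Agent.H416.WR.loc F P,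
      fun G _ h => Pool.Agent.H416.WR.geom h⟩

end Pool.Agent.Results.MP_490288_al.LinearCentralizers
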